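import Pool.Agent.Y813.LE.Stm2
import Pool.Agent.Y155.RL.DIV
import Pool.Agent.Y155.RL.VD

/-!
# LEE: SLICE, zero counting on a disc in one variable
-/

set_option autoImplicit false

namespace Pool.Agent.Y674.LE

open Complex Metric Topology Filter
open Pool.Agent.Y813.LE

/-- the complement of the zeros is dense -/
lemma dense_ne (ζ : ℂ) {m : ℕ} (hm : 0 < m) (p : ℂ) (U : Set ℂ) (hU : U ∈ 𝓝 p) :
    ∃ q ∈ U, 1 - ζ * q ^ m ≠ 0 := by
  obtain ⟨P, hP⟩ : ∃ P : Polynomial ℂ, P = 1 - Polynomial.C ζ * Polynomial.X ^ m := ⟨_, rfl⟩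
  have he : ∀ q, P.eval q = 1 - ζ * q ^ m := fun q => by rw [hP]; simp
  have hP0 : P ≠ 0 := by
    intro h
    have h1 := he 0
    rw [h, Polynomial.eval_zero, zero_pow hm.ne', mul_zero, sub_zero] at h1
    exact zero_ne_one h1
  have hfin : {q : ℂ | P.eval q = 0}.Finite := by
    have := P.roots.toFinset.finite_toSet
    refine this.subset fun q hq => ?_
    rw [Finset.mem_coe, Multiset.mem_toFinset, Polynomial.mem_roots hP0]
    exact hq
  obtain ⟨V, hVU, hVo, hpV⟩ := _root_.mem_nhds_iff.1 hU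
  obtain ⟨q, hqV, hq⟩ := (hfin.countable.dense_compl ℂ).inter_open_nonempty V hVo ⟨p, hpV⟩
  refine ⟨q, hVU hqV, ?_⟩
  rw [← he]
  exact hq

/-- the quotient has no zeros -/
lemma quot {R' : ℝ} {β m : ℕ} {ζ : ℂ} {g : ℂ → ℂ} (hm : 0 < m)
    (hg : DifferentiableOn ℂ g (ball 0 R'))
    (hc : ∀ s ∈ ball (0 : ℂ) R', ∃ C : ℝ, ∀ᶠ t in 𝓝 s, ‖g t‖ ≤ C * ‖1 - ζ * t ^ m‖ ^ β ∧
      ‖1 - ζ * t ^ m‖ ^ β ≤ C * ‖g t‖) :
    ∃ c : ℂ → ℂ, DifferentiableOn ℂ c (ball 0 R') ∧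
      (∀ p ∈ ball (0 : ℂ) R', g p = (1 - ζ * p ^ m) ^ β * c p) ∧
      ∀ p ∈ ball (0 : ℂ) R', c p ≠ 0 := by
  have hB : DifferentiableOn ℂ (fun t : ℂ => (1 - ζ * t ^ m) ^ β) (ball 0 R') := by fun_prop
  have hden : ∀ p ∈ ball (0 : ℂ) R', ∀ U ∈ 𝓝 p, ∃ q ∈ U, q ∈ ball (0 : ℂ) R' ∧
      (1 - ζ * q ^ m) ^ β ≠ 0 := by
    intro p hp U hU
    obtain ⟨q, hq, hq0⟩ := dense_ne ζ hm p _ (inter_mem hU (isOpen_ball.mem_nhds hp))
    exact ⟨q, hq.1, hq.2, pow_ne_zero _ hq0⟩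
  have hloc : ∀ (x y C : ℝ), 0 ≤ y → x ≤ C * y → x ≤ |C| * y * (1 + |Real.log y|) := by
    intro x y C hy hxy
    have h1 : C * y ≤ |C| * y := mul_le_mul_of_nonneg_right (le_abs_self C) hy
    have h2 : 0 ≤ |C| * y := mul_nonneg (abs_nonneg C) hy
    have h3 : |C| * y ≤ |C| * y * (1 + |Real.log y|) := by
      refine le_mul_of_one_le_right h2 ?_
      linarith [abs_nonneg (Real.log y)]
    linarith
  have hden2 : ∀ p ∈ ball (0 : ℂ) R', ∀ U ∈ 𝓝 p, ∃ q ∈ U, q ∈ ball (0 : ℂ) R' ∧ g q ≠ 0 := by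
    intro p hp U hU
    obtain ⟨C, hC⟩ := hc p hp
    obtain ⟨q, hq, hqb, hq0⟩ := hden p hp _ (inter_mem hU hC)
    refine ⟨q, hq.1, hqb, fun h => ?_⟩
    have h1 := hq.2.2
    rw [h, norm_zero, mul_zero, ← norm_pow] at h1
    exact hq0 (norm_le_zero_iff.1 h1)
  obtain ⟨c, hcd, hcg⟩ := Pool.Agent.Y155.RL.div ℂ (ball 0 R') g (fun t => (1 - ζ * t ^ m) ^ β)
    isOpen_ball hg hB hden (by
      intro p hp
      obtain ⟨C, hC⟩ := hc p hp
      refine ⟨_, hC, |C|, fun q hq _ => ?_⟩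
      have h1 := hq.1
      rw [← norm_pow] at h1
      exact hloc _ _ _ (norm_nonneg _) h1)
  obtain ⟨c', hcd', hcg'⟩ := Pool.Agent.Y155.RL.div ℂ (ball 0 R') (fun t => (1 - ζ * t ^ m) ^ β) g
    isOpen_ball hB hg hden2 (by
      intro p hp
      obtain ⟨C, hC⟩ := hc p hp
      refine ⟨_, hC, |C|, fun q hq _ => ?_⟩
      have h1 := hq.2
      rw [← norm_pow] at h1
      exact hloc _ _ _ (norm_nonneg _) h1)
  refine ⟨c, hcd, hcg, fun p hp h0 => ?_⟩
  -- the product is one at points where `g` is not zero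
  have h1 : ∀ q ∈ ball (0 : ℂ) R', g q ≠ 0 → c q * c' q = 1 := by
    intro q hq hq0
    have h2 := hcg q hq
    have h3 := hcg' q hq
    beta_reduce at h3
    rw [h3] at h2
    have h4 : g q * (c q * c' q) = g q * 1 := by
      rw [mul_one]
      conv_rhs => rw [h2]
      ring
    exact mul_left_cancel₀ hq0 h4
  have hcont : ContinuousAt (fun q => c q * c' q) p :=
    ((hcd.differentiableAt (isOpen_ball.mem_nhds hp)).continuousAt).mul
      ((hcd'.differentiableAt (isOpen_ball.mem_nhds hp)).continuousAt)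
  have h5 : ∀ᶠ q in 𝓝 p, dist (c q * c' q) (c p * c' p) < 1 :=
    (Metric.continuousAt_iff'.1 hcont) 1 one_pos
  obtain ⟨q, hq, hqb, hq0⟩ := hden2 p hp _ h5
  have h6 : dist (c q * c' q) (c p * c' p) < 1 := hq
  rw [h1 q hqb hq0, h0, zero_mul, dist_zero_right, norm_one] at h6
  exact lt_irrefl _ h6

/-- SLICE -/
theorem job : JobSlice := by
  intro R R' K β m ζ g hR hRR hK hm hg hg0 hgK hζ hc s hs hs0
  obtain ⟨c, hcd, hcg, hc0⟩ := quot hm hg hc
  have hsub : ball (0 : ℂ) R ⊆ ball 0 R' := ball_subset_ball hRR.le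
  have hsub2 : closedBall (0 : ℂ) R ⊆ ball 0 R' := closedBall_subset_ball hRR
  have hc1 : c 0 = 1 := by
    have := hcg 0 (mem_ball_self (hR.trans hRR))
    rw [hg0, zero_pow hm.ne', mul_zero, sub_zero, one_pow, one_mul] at this
    exact this.symm
  -- the bound on the circle
  have hsph : ∀ z ∈ sphere (0 : ℂ) R, ‖c z‖ ≤ Real.exp K := by
    intro z hz
    have hz1 : z ∈ ball (0 : ℂ) R' := hsub2 (sphere_subset_closedBall hz)
    have hz2 : ‖z‖ = R := mem_sphere_zero_iff_norm.1 hz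
    have h1 := hgK z hz1
    rw [hcg z hz1, norm_mul, norm_pow] at h1
    have h2 : 1 ≤ ‖1 - ζ * z ^ m‖ := by
      have h3 := norm_sub_norm_le (ζ * z ^ m) 1
      rw [norm_sub_rev, norm_one, norm_mul, norm_pow, hz2] at h3
      linarith
    have h3 : 1 ≤ ‖1 - ζ * z ^ m‖ ^ β := one_le_pow₀ h2
    have h4 : ‖c z‖ ≤ ‖1 - ζ * z ^ m‖ ^ β * ‖c z‖ := le_mul_of_one_le_left (norm_nonneg _) h3
    exact h4.trans h1
  have hbd : ∀ z ∈ ball (0 : ℂ) R, ‖c z‖ ≤ Real.exp K := by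
    intro z hz
    refine Complex.norm_le_of_forall_mem_frontier_norm_le (U := ball (0 : ℂ) R) isBounded_ball ?_ ?_
      (subset_closure hz)
    · refine DifferentiableOn.diffContOnCl ?_
      rw [closure_ball _ hR.ne']
      exact hcd.mono hsub2
    · intro w hw
      rw [frontier_ball _ hR.ne'] at hw
      exact hsph w hw
  obtain ⟨f, hf0, hfd, hfe⟩ := Pool.Agent.Y155.RL.exists_log hR (hcd.mono hsub)
    (fun z hz => hc0 z (hsub hz)) hc1
  have hfD : DifferentiableOn ℂ f (ball 0 R) := fun z hz =>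
    (hfd z hz).differentiableAt.differentiableWithinAt
  have hre : ∀ z ∈ ball (0 : ℂ) R, (f z).re ≤ K := by
    intro z hz
    have := hbd z hz
    rw [← hfe z hz, Complex.norm_exp, Real.exp_le_exp] at this
    exact this
  have hsR : s ∈ ball (0 : ℂ) R := by
    rw [mem_ball_zero_iff]
    linarith
  have hfs : ‖f s‖ ≤ 4 * K * ‖s‖ / R := by
    refine le_of_forall_pos_le_add fun ε hε => ?_
    have h1 := Complex.borelCaratheodory_zero (M := K + ε / 2) (by positivity) hfD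
      (fun z hz => by
        have := hre z hz
        show (f z).re ≤ K + ε / 2
        linarith) hR hsR hf0
    have h2 : 0 < R - ‖s‖ := by linarith
    have h3 : 2 * (K + ε / 2) * ‖s‖ / (R - ‖s‖) ≤ 2 * (K + ε / 2) * ‖s‖ / (R / 2) :=
      div_le_div_of_nonneg_left (by positivity) (by positivity) (by linarith)
    have h4 : 2 * (K + ε / 2) * ‖s‖ / (R / 2) = 4 * K * ‖s‖ / R + ε * (2 * ‖s‖ / R) := by
      field_simp
      ring
    have h5 : 2 * ‖s‖ / R ≤ 1 := by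
      rw [div_le_one hR]
      linarith
    have h6 := mul_le_mul_of_nonneg_left h5 hε.le
    linarith
  have hgs : ‖g s‖ = ‖1 - ζ * s ^ m‖ ^ β * Real.exp (f s).re := by
    rw [hcg s (hsub hsR), norm_mul, norm_pow, ← hfe s hsR, Complex.norm_exp]
  rw [hgs, Real.log_mul (pow_ne_zero _ (norm_ne_zero_iff.2 hs0)) (Real.exp_ne_zero _), Real.log_exp,
    Real.log_pow, add_sub_cancel_left]
  exact (Complex.abs_re_le_norm _).trans hfs

end Pool.Agent.Y674.LE
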